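import Pool.Agent.Lib.MP_af3a4a_an.P1.CHK.SWP.Item
import Pool.Agent.Lib.MP_af3a4a_an.P1.CHK.DATA.N5s.C0
import Pool.Agent.Lib.MP_af3a4a_an.P1.CHK.DATA.N5s.Z0
import Pool.Agent.Lib.MP_af3a4a_an.P1.CHK.DATA.N5s.Z1
import Pool.Agent.Lib.MP_af3a4a_an.P1.CHK.DATA.F5.W528a
import Pool.Agent.Lib.MP_af3a4a_an.P1.CHK.DATA.F5.W576a
import Pool.Agent.Lib.MP_af3a4a_an.P1.CHK.DATA.F5.W624a

/-! chunks for N = 5 (generated) -/

set_option autoImplicit false
set_option maxRecDepth 100000

namespace Pool.Agent.Lib.MP_af3a4a_an.P1.CHK.DATA.N5s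

open BOX SWP

def t6 : Tree := (.sg 56 (.sr 2304 (.sg 52 (.sR 2336 (.leaf 0x3f0580000028000150d8008c0803f1005) (.sR 2464 (.leaf 0x3d07000004280011811043950803d1005) (.leaf 0x3d07800010280021912c18ce2803d1005))) (.sR 2336 (.leaf 0x400500001428003140a00000280401005) (.sR 2464 (.leaf 0x3c0640000828004168ec060ca803c1005) (.leaf 0x400600000c280051608c0000280401005)))) (.sg 52 (.sr 2432 (.sR 2336 (.leaf 0x3c06000000280061692c1c4cd803c1005) (.sR 2464 (.leaf 0x3c070000042800718110459e9803c1005) (.leaf 0x3c07c0001028008198f87761e803c1005))) (.sR 2336 (.sg 50 (.leaf 0x4205c000002800b16140006eb80421005) (.leaf 0x41068000002800c178d0eb21680411005)) (.sR 2464 (.leaf 0x3f0640000428009168ec00635803f1005) (.leaf 0x42074000102800a18940006eb80421005)))) (.sr 2432 (.sR 2336 (.leaf 0x40068000002800d178d0e15e36a401005) (.sR 2464 (.leaf 0x3c064000082800e168ec05ce36a3c1005) (.leaf 0x3d0700000c2800f18100023f76a3d1005))) (.sR 2336 (.leaf 0x3f0640000028010170f874945803f1005) (.sR 2464 (.leaf 0x3d0740000428011188e0ae425803d1005) (.leaf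 3)))))) (.sr 2304 (.sR 2336 (.leaf 0x3d0580001428012150d804d2a6a3d1005) (.sR 2464 (.leaf 0x3d0640000828013168ec041db403d1005) (.leaf 0x380700000c28014181000ec4e6a381005))) (.sR 2336 (.leaf 0x3e05c000182801516140006eb803e1005) (.leaf 3))))
theorem k6 : ChunkP 5 5 2048 2560 48 64 2208 2592 :=
  chkZ_sound (Q := 40) (C := []) (Z := [z286, z287, z288, z289, z290, z291, z292, z293, z294, z295, z296, z297, z298, z299, z300, z301, z302, z303, z304, z305, z306, z307])
    (T := [f_w552_584_0_40_10s, f_w584_616_0_40_10s, f_w584_616_0_10_0s, f_w616_648_0_10_0s, f_w616_648_0_40_10s, f_w552_584_0_5_0s, f_w552_584_0_30_40s]) (t := t6)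
    all_nil
    (all_cons z286P (all_cons z287P (all_cons z288P (all_cons z289P (all_cons z290P (all_cons z291P (all_cons z292P (all_cons z293P (all_cons z294P (all_cons z295P (all_cons z296P (all_cons z297P (all_cons z298P (all_cons z299P (all_cons z300P (all_cons z301P (all_cons z302P (all_cons z303P (all_cons z304P (all_cons z305P (all_cons z306P (all_cons z307P all_nil))))))))))))))))))))))
    (all_cons f_w552_584_0_40_10s_p (all_cons f_w584_616_0_40_10s_p (all_cons f_w584_616_0_10_0s_p (all_cons f_w616_648_0_10_0s_p (all_cons f_w616_648_0_40_10s_p (all_cons f_w552_584_0_5_0s_p (all_cons f_w552_584_0_30_40s_p all_nil)))))))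
    (by decide +kernel)
def t7 : Tree := (.sg 96 (.sg 80 (.sR 2336 (.leaf 0x3e05c000002800016140006eb803e1005) (.leaf 3)) (.leaf 3)) (.leaf 3))
theorem k7 : ChunkP 5 5 2048 2560 64 101 2208 2592 :=
  chkZ_sound (Q := 40) (C := []) (Z := [z308])
    (T := [f_w552_584_0_30_40s]) (t := t7)
    all_nil
    (all_cons z308P all_nil)
    (all_cons f_w552_584_0_30_40s_p all_nil)
    (by decide +kernel)
def t8 : Tree := (.sg 8 (.sr 2816 (.sR 2336 (.leaf 0x3b0500000028000140a02dca7803b1005) (.sR 2464 (.leaf 0x3d0580000c28001150941e617803d1005) (.leaf 0x3f06c0001028002178d8008c0803f1005))) (.sR 2336 (.leaf 0x3b0500000028003140a02dca7803b1005) (.sR 2464 (.leaf 0x3f0540000c280041488427246803f1005) (.leaf 0x3d0680001028005170b809654803d1005)))) (.sr 2816 (.sR 2464 (.sg 12 (.sR 2336 (.leaf 0x3e04c00000280071388c1dd29803e1005) (.leaf 0x3c0601c00428008160c80bae0803c1005)) (.sR 2336 (.sr 2688 (.leaf 0x40050000082800a140a00000280401005) (.leaf 0x4004c000082800b1388c0000280401005)) (.leaf 0x3e0581c00428009150940ff44803e1005))) (.leaf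 0x3e0641c01428006168a009886803e1005)) (.sR 2336 (.sg 12 (.leaf 0x3d04c000002800d1388c307b2803d1005) (.leaf 0x3e04c1c0182800e1388c1dd29803e1005)) (.sR 2464 (.leaf 0x3f0581c0042800c1509404ade803f1005) (.leaf 0x3e080080141e000178d8022bf803e1000)))))
theorem k8 : ChunkP 5 5 2560 3072 0 16 2208 2592 :=
  chkZ_sound (Q := 40) (C := [c0.c]) (Z := [z309, z310, z311, z312, z313, z314, z315, z316, z317, z318, z319, z320, z321, z322, z323])
    (T := [f_w552_584_0_60_0s, f_w584_616_0_60_0s, f_w552_584_0_50_10s, f_w584_616_0_50_10s, f_w616_648_0_50_10s, f_w616_648_0_60_0s, f_w552_584_0_70_0s]) (t := t8)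
    (all_cons p0 all_nil)
    (all_cons z309P (all_cons z310P (all_cons z311P (all_cons z312P (all_cons z313P (all_cons z314P (all_cons z315P (all_cons z316P (all_cons z317P (all_cons z318P (all_cons z319P (all_cons z320P (all_cons z321P (all_cons z322P (all_cons z323P all_nil)))))))))))))))
    (all_cons f_w552_584_0_60_0s_p (all_cons f_w584_616_0_60_0s_p (all_cons f_w552_584_0_50_10s_p (all_cons f_w584_616_0_50_10s_p (all_cons f_w616_648_0_50_10s_p (all_cons f_w616_648_0_60_0s_p (all_cons f_w552_584_0_70_0s_p all_nil)))))))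
    (by decide +kernel)
def t9 : Tree := (.sg 24 (.sr 2816 (.sg 20 (.sR 2464 (.sr 2688 (.sR 2336 (.leaf 0x3d0500000028001140a013bab803d1005) (.leaf 0x3e05c0001828002158ac0639c803e1005)) (.sR 2336 (.leaf 0x3d0500000028003140a013bab803d1005) (.leaf 0x3f05800018280041509404ade803f1005))) (.leaf 0x3f0601c010280001608c0c236803f1005)) (.sr 2688 (.sR 2336 (.sg 22 (.leaf 0x410540000028007148b80117480411005) (.leaf 0x3e04c00000280081388c1dd29803e1005)) (.sR 2464 (.leaf 0x3e05c1c00428005158ac0639c803e1005) (.leaf 0x3d0640001428006168a013bab803d1005))) (.sR 2336 (.leaf 0x4004c00000280091388c0000280401005) (.sR 2464 (.leaf 0x410601c0042800a160c800c4880411005) (.leaf 0x3d064000142800b168a013bab803d1005))))) (.sg 20 (.sR 2336 (.sr 2944 (.leaf 0x3f054000002800d148b801174803f1005) (.leaf 0x41054000002800e148b80117480411005)) (.sR 2464 (.leaf 0x3f0541c0042800c1488427246803f1005) (.leaf 0x3c080040101c000170b81025a803c1000))) (.sR 2464 (.sr 2944 (.sR 2336 (.leaf 0x3f04c000002800f1388c0c236803f1005) (.leaf 0x3c0601c00428010160c80bae0803c1005))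 (.sR 2336 (.leaf 0x3f04c00000280111388c0c236803f1005) (.leaf 0x3c0601c00428012160c80bae0803c1005))) (.leaf 0x3f078040101c0011608c0c236803f1000)))) (.sr 2816 (.sg 28 (.sr 2688 (.sR 2464 (.sg 26 (.sR 2336 (.leaf 0x3f04c00000280141388c0c236803f1005) (.leaf 0x400580001828015150940000280401005)) (.sR 2336 (.sR 2272 (.leaf 0x3f05c00008280171595400149803f1005) (.leaf 0x3d0640000c28018169b8004f5803d1005)) (.leaf 0x3f0581c004280161509404ade803f1005))) (.leaf 0x3e0641c01028013168a009886803e1005)) (.sR 2336 (.sg 26 (.leaf 0x3f04c000002801b1388c0c236803f1005) (.sR 2272 (.leaf 0x3e058000082801c1511000e11803e1005) (.leaf 0x3b0600000c2801d1614002a55803b1005))) (.sR 2464 (.leaf 0x3f0541c004280191488427246803f1005) (.leaf 0x3d0681c0102801a170b809654803d1005)))) (.sr 2688 (.sg 30 (.sR 2336 (.sR 2272 (.leaf 0x3e05800008280201511000e11803e1005) (.leaf 0x3c0600000c280211614001b55803c1005)) (.sR 2464 (.leaf 0x40054000182801e148841d5f380401005) (.leaf 0x40068000142801f170b80000280401005))) (.sR 2464 (.sR 2336 (.sR 2272 (.leaf 0x3f0540000828023148e000762803f1005)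 (.leaf 0x410600000c2802416140001bc80411005)) (.sR 2400 (.leaf 0x4106c0001c28025179540088280411005) (.leaf 0x3c07400020280261891c2f816803c1005))) (.leaf 0x3f06000014280221608c0c236803f1005))) (.sg 30 (.sR 2336 (.sR 2272 (.leaf 0x3f0540000828029148e000762803f1005) (.leaf 0x3f0600000c2802a16140001bc803f1005)) (.sR 2464 (.leaf 0x3f0581c004280271509404ade803f1005) (.leaf 0x4006000014280281608c0000280401005))) (.sR 2464 (.sR 2336 (.sR 2272 (.leaf 0x3e054000082802c148e001d58803e1005) (.leaf 0x3f05c0000c2802d159000044f803f1005)) (.sR 2400 (.leaf 0x400640001c2802e1692c0000280401005) (.leaf 0x40070000202802f181700000280401005))) (.leaf 0x40060000142802b1608c0000280401005))))) (.sg 28 (.sr 2944 (.sR 2336 (.sg 26 (.leaf 0x3f04c00000280321388c0c236803f1005) (.sR 2272 (.leaf 0x3d0540000828033148e00415f803d1005) (.leaf 0x3e0600000c2803416140006eb803e1005))) (.sR 2464 (.leaf 0x3f0581c004280301509404ade803f1005) (.leaf 0x3b06c1c01028031178d80cf45803b1005))) (.sR 2336 (.sg 26 (.leaf 0x400500000028037140a00000280401005) (.leaf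 0x4004c00000280381388c0000280401005)) (.sR 2464 (.leaf 0x3e0581c00428035150940ff44803e1005) (.leaf 0x420701c01028036181000112580421005)))) (.sr 2944 (.sR 2464 (.sg 30 (.sR 2336 (.sR 2272 (.leaf 0x3e054000082803b148e001d58803e1005) (.leaf 0x3e0600000c2803c16140006eb803e1005)) (.leaf 0x3e0581c0042803a150940ff44803e1005)) (.sR 2336 (.sR 2272 (.leaf 0x3f050000082803e140c000e99803f1005) (.leaf 0x3d05c0000c2803f1590002650803d1005)) (.leaf 0x400581c0042803d150940000280401005))) (.leaf 0x3f0601c010280391608c0c236803f1005)) (.sR 2464 (.sg 30 (.sR 2336 (.sR 2272 (.leaf 0x400540000828042148e00000280401005) (.leaf 0x3c05c0000c28043159000437d803c1005)) (.leaf 0x3d05c1c00428041158ac0d63d803d1005)) (.sR 2336 (.sR 2272 (.leaf 0x410500000828045140c000e9980411005) (.leaf 0x4005c0000c28046159000000280401005)) (.leaf 0x3f0581c004280441509404ade803f1005))) (.leaf 0x3e0641c01028040168a009886803e1005))))))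
theorem k9 : ChunkP 5 5 2560 3072 16 32 2208 2592 :=
  chkZ_sound (Q := 40) (C := [c1.c, c2.c]) (Z := [z324, z325, z326, z327, z328, z329, z330, z331, z332, z333, z334, z335, z336, z337, z338, z339, z340, z341, z342, z343, z344, z345, z346, z347, z348, z349, z350, z351, z352, z353, z354, z355, z356, z357, z358, z359, z360, z361, z362, z363, z364, z365, z366, z367, z368, z369, z370, z371, z372, z373, z374, z375, z376, z377, z378, z379, z380, z381, z382, z383, z384, z385, z386, z387, z388, z389, z390, z391, z392, z393, z394])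
    (T := [f_w552_584_0_60_0s, f_w584_616_0_60_0s, f_w552_568_0_60_20s, f_w568_584_0_60_20s, f_w616_648_0_60_0s, f_w616_648_0_50_10s, f_w584_616_0_50_10s, f_w584_600_0_50_30s, f_w600_616_0_50_30s]) (t := t9)
    (all_cons p1 (all_cons p2 all_nil))
    (all_cons z324P (all_cons z325P (all_cons z326P (all_cons z327P (all_cons z328P (all_cons z329P (all_cons z330P (all_cons z331P (all_cons z332P (all_cons z333P (all_cons z334P (all_cons z335P (all_cons z336P (all_cons z337P (all_cons z338P (all_cons z339P (all_cons z340P (all_cons z341P (all_cons z342P (all_cons z343P (all_cons z344P (all_cons z345P (all_cons z346P (all_cons z347P (all_cons z348P (all_cons z349P (all_cons z350P (all_cons z351P (all_cons z352P (all_cons z353P (all_cons z354P (all_cons z355P (all_cons z356P (all_cons z357P (all_cons z358P (all_cons z359P (all_cons z360P (all_cons z361P (all_cons z362P (all_cons z363P (all_cons z364P (all_cons z365P (all_cons z366P (all_cons z367P (all_cons z368P (all_cons z369P (all_cons z370P (all_cons z371P (all_cons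 z372P (all_cons z373P (all_cons z374P (all_cons z375P (all_cons z376P (all_cons z377P (all_cons z378P (all_cons z379P (all_cons z380P (all_cons z381P (all_cons z382P (all_cons z383P (all_cons z384P (all_cons z385P (all_cons z386P (all_cons z387P (all_cons z388P (all_cons z389P (all_cons z390P (all_cons z391P (all_cons z392P (all_cons z393P (all_cons z394P all_nil)))))))))))))))))))))))))))))))))))))))))))))))))))))))))))))))))))))))
    (all_cons f_w552_584_0_60_0s_p (all_cons f_w584_616_0_60_0s_p (all_cons f_w552_568_0_60_20s_p (all_cons f_w568_584_0_60_20s_p (all_cons f_w616_648_0_60_0s_p (all_cons f_w616_648_0_50_10s_p (all_cons f_w584_616_0_50_10s_p (all_cons f_w584_600_0_50_30s_p (all_cons f_w600_616_0_50_30s_p all_nil)))))))))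
    (by decide +kernel)
def t10 : Tree := (.sg 36 (.sr 2688 (.sg 34 (.sR 2400 (.sR 2272 (.leaf 0x430500000828000140c007eee80431005) (.sR 2336 (.leaf 0x3f0580000c28001150d8008c0803f1005) (.leaf 0x4206c00000280021795401f8880421005))) (.sR 2464 (.leaf 0x3c07400004280031891c2f816803c1005) (.sR 2528 (.leaf 0x3c07c0001028004198f87761e803c1005) (.leaf 0x3808000014280051a1006558880381005)))) (.sR 2464 (.sR 2336 (.sR 2272 (.leaf 0x400500000828007140c00000280401005) (.leaf 0x400500000c28008140a00000280401005)) (.sR 2400 (.leaf 0x3d06800000280091719000514803d1005) (.leaf 0x3c074000042800a1891c2f816803c1005))) (.leaf 0x4106000020280061608c0c23680411005))) (.sg 34 (.sR 2464 (.sR 2336 (.sR 2272 (.leaf 0x40050000082800c140c00000280401005) (.leaf 0x3f05c0000c2800d159000044f803f1005)) (.sR 2400 (.leaf 0x40060000002800e160f80000280401005) (.leaf 0x43070000042800f1817001b6b80431005))) (.leaf 0x3f0601c0242800b1608c0c236803f1005)) (.sR 2400 (.sR 2272 (.leaf 0x400480000828010130900000280401005) (.sR 2336 (.leaf 0x430580000c28011150d804d4680431005)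 (.leaf 0x3e06400000280121692c008fe803e1005))) (.sR 2464 (.leaf 0x3f06c000042801317970000e6803f1005) (.sR 2528 (.leaf 0x3e07c0001028014198f8752f9803e1005) (.leaf 0x3808000014280151a1006558880381005)))))) (.sr 2688 (.sg 38 (.sR 2400 (.sR 2272 (.leaf 0x400480000828016130900000280401005) (.sR 2336 (.leaf 0x410540000c28017148b80117480411005) (.leaf 0x3e06800000280181719000245803e1005))) (.sR 2464 (.leaf 0x3c07400004280191891c2f816803c1005) (.sR 2528 (.leaf 0x3807c000102801a198f87d76080381005) (.leaf 0x38080000142801b1a1006558880381005)))) (.sR 2400 (.sR 2272 (.leaf 0x40050000182801c140c00000280401005) (.sR 2336 (.leaf 0x400640001c2801d169b80000280401005) (.leaf 0x3e070000002801e1811041f3f803e1005))) (.sR 2464 (.leaf 0x3c074000042801f1891c2f816803c1005) (.sR 2528 (.leaf 0x3807c0001028020198f87d76080381005) (.leaf 0x3808000014280211a1006558880381005))))) (.sg 38 (.sR 2400 (.sR 2272 (.sr 2752 (.leaf 0x3c05c00008280271595401436803c1005) (.leaf 0x3f05800008280281511000388803f1005)) (.sR 2336 (.leaf 0x4004c0000c280221388c0000280401005)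 (.leaf 0x4106400000280231692c0024280411005))) (.sR 2464 (.leaf 0x4007400004280241891c2878c80401005) (.sR 2528 (.leaf 0x3f07c0001028025198f874945803f1005) (.leaf 0x3808000014280261a1006558880381005)))) (.sR 2400 (.sR 2272 (.leaf 0x400480001828029130900000280401005) (.sR 2336 (.leaf 0x4104c0001c2802a1388c0c23680411005) (.leaf 0x42060000002802b160f8014a980421005))) (.sR 2464 (.leaf 0x40074000042802c1891c2878c80401005) (.sR 2528 (.leaf 0x3907c000102802d198f87bf0480391005) (.leaf 0x38080000142802e1a1006558880381005)))))))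
theorem k10 : ChunkP 5 5 2560 2816 32 40 2208 2592 :=
  chkZ_sound (Q := 40) (C := []) (Z := [z395, z396, z397, z398, z399, z400, z401, z402, z403, z404, z405, z406, z407, z408, z409, z410, z411, z412, z413, z414, z415, z416, z417, z418, z419, z420, z421, z422, z423, z424, z425, z426, z427, z428, z429, z430, z431, z432, z433, z434, z435, z436, z437, z438, z439, z440, z441])
    (T := [f_w584_600_0_50_30s, f_w600_616_0_50_30s, f_w552_568_0_60_20s, f_w568_584_0_60_20s, f_w616_632_0_50_30s, f_w632_648_0_50_30s, f_w552_568_0_50_40s, f_w568_584_0_50_30s, f_w616_648_0_50_35s, f_w616_648_0_60_0s]) (t := t10)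
    all_nil
    (all_cons z395P (all_cons z396P (all_cons z397P (all_cons z398P (all_cons z399P (all_cons z400P (all_cons z401P (all_cons z402P (all_cons z403P (all_cons z404P (all_cons z405P (all_cons z406P (all_cons z407P (all_cons z408P (all_cons z409P (all_cons z410P (all_cons z411P (all_cons z412P (all_cons z413P (all_cons z414P (all_cons z415P (all_cons z416P (all_cons z417P (all_cons z418P (all_cons z419P (all_cons z420P (all_cons z421P (all_cons z422P (all_cons z423P (all_cons z424P (all_cons z425P (all_cons z426P (all_cons z427P (all_cons z428P (all_cons z429P (all_cons z430P (all_cons z431P (all_cons z432P (all_cons z433P (all_cons z434P (all_cons z435P (all_cons z436P (all_cons z437P (all_cons z438P (all_cons z439P (all_cons z440P (all_cons z441P all_nil)))))))))))))))))))))))))))))))))))))))))))))))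
    (all_cons f_w584_600_0_50_30s_p (all_cons f_w600_616_0_50_30s_p (all_cons f_w552_568_0_60_20s_p (all_cons f_w568_584_0_60_20s_p (all_cons f_w616_632_0_50_30s_p (all_cons f_w632_648_0_50_30s_p (all_cons f_w552_568_0_50_40s_p (all_cons f_w568_584_0_50_30s_p (all_cons f_w616_648_0_50_35s_p (all_cons f_w616_648_0_60_0s_p all_nil))))))))))
    (by decide +kernel)
def t11 : Tree := (.sg 36 (.sr 2944 (.sg 34 (.sR 2464 (.sR 2336 (.sR 2272 (.leaf 0x4004c0000028001138a80000280401005) (.leaf 0x3f0580000428002150d8008c0803f1005)) (.sR 2400 (.leaf 0x4005c0000c28003158d00000280401005) (.leaf 0x4006c0000828004179700000280401005))) (.leaf 0x3e0641c01028000168a009886803e1005)) (.sR 2464 (.sR 2336 (.sR 2272 (.sr 2880 (.leaf 0x4005c0000028009159540000280401005) (.leaf 0x40058000002800a151100000280401005)) (.leaf 0x420540000428006148b80449c80421005)) (.sR 2400 (.leaf 0x420580000c28007150b40524580421005) (.leaf 0x4006800008280081711c0000280401005))) (.leaf 0x420641c01028005168a00988680421005))) (.sg 34 (.sR 2336 (.sR 2272 (.leaf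 0x3f048000002800d13090071b1803f1005) (.leaf 0x41058000042800e150d8008c080411005)) (.sR 2464 (.leaf 0x400540001c2800b148841d5f380401005) (.leaf 0x3f06c1c0102800c178d8008c0803f1005))) (.sR 2464 (.sR 2336 (.sR 2272 (.leaf 0x40048000002800f130900000280401005) (.leaf 0x420580000428010150d8022bf80421005)) (.sR 2400 (.leaf 0x4207000018280111811041f3f80421005) (.leaf 0x4105c0000828012158ac019ae80411005))) (.leaf 3)))) (.sr 2944 (.sg 38 (.sR 2464 (.sR 2336 (.sR 2272 (.sr 2880 (.leaf 0x3e05800000280171511000e11803e1005) (.leaf 0x3f05800000280181511000388803f1005)) (.leaf 0x420540000428014148b80449c80421005)) (.sR 2400 (.leaf 0x400500000c2801514088072c080401005) (.leaf 0x400600000828016160c80000280401005))) (.leaf 0x420640002428013168a00988680421005)) (.sR 2400 (.sR 2272 (.sr 2880 (.leaf 0x3f054000002801d148e000762803f1005) (.leaf 0x3f054000002801e148e000762803f1005)) (.sR 2336 (.leaf 0x4204c00014280191388c1dd2980421005) (.leaf 0x420580000c2801a150b40524580421005))) (.sR 2464 (.leaf 0x40058000082801b150940000280401005)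 (.sR 2528 (.leaf 0x3d078000202801c1912c18ce2803d1005) (.leaf 3))))) (.sR 2464 (.sg 38 (.sR 2336 (.sR 2272 (.sr 3008 (.leaf 0x400540000028022148e00000280401005) (.leaf 0x400540000028023148e00000280401005)) (.leaf 0x41050000042801f140a00289e80411005)) (.sR 2400 (.leaf 0x400500000c2802014088072c080401005) (.leaf 0x400540000828021148841d5f380401005))) (.sR 2336 (.sR 2272 (.sr 3008 (.leaf 0x3f0540000028026148e000762803f1005) (.leaf 0x420500000028027140c00399d80421005)) (.leaf 0x4104c00014280241388c0c23680411005)) (.sR 2400 (.leaf 0x4207000018280251811041f3f80421005) (.leaf 3)))) (.leaf 3))))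
theorem k11 : ChunkP 5 5 2816 3072 32 40 2208 2592 :=
  chkZ_sound (Q := 40) (C := []) (Z := [z442, z443, z444, z445, z446, z447, z448, z449, z450, z451, z452, z453, z454, z455, z456, z457, z458, z459, z460, z461, z462, z463, z464, z465, z466, z467, z468, z469, z470, z471, z472, z473, z474, z475, z476, z477, z478, z479, z480, z481])
    (T := [f_w552_568_0_60_20s, f_w568_584_0_60_20s, f_w600_616_0_50_30s, f_w584_600_0_50_30s, f_w616_648_0_60_0s, f_w568_584_0_60_40s, f_w584_600_0_60_35s, f_w584_616_0_60_35s, f_w616_632_0_50_30s, f_w616_648_0_55_35s]) (t := t11)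
    all_nil
    (all_cons z442P (all_cons z443P (all_cons z444P (all_cons z445P (all_cons z446P (all_cons z447P (all_cons z448P (all_cons z449P (all_cons z450P (all_cons z451P (all_cons z452P (all_cons z453P (all_cons z454P (all_cons z455P (all_cons z456P (all_cons z457P (all_cons z458P (all_cons z459P (all_cons z460P (all_cons z461P (all_cons z462P (all_cons z463P (all_cons z464P (all_cons z465P (all_cons z466P (all_cons z467P (all_cons z468P (all_cons z469P (all_cons z470P (all_cons z471P (all_cons z472P (all_cons z473P (all_cons z474P (all_cons z475P (all_cons z476P (all_cons z477P (all_cons z478P (all_cons z479P (all_cons z480P (all_cons z481P all_nil))))))))))))))))))))))))))))))))))))))))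
    (all_cons f_w552_568_0_60_20s_p (all_cons f_w568_584_0_60_20s_p (all_cons f_w600_616_0_50_30s_p (all_cons f_w584_600_0_50_30s_p (all_cons f_w616_648_0_60_0s_p (all_cons f_w568_584_0_60_40s_p (all_cons f_w584_600_0_60_35s_p (all_cons f_w584_616_0_60_35s_p (all_cons f_w616_632_0_50_30s_p (all_cons f_w616_648_0_55_35s_p all_nil))))))))))
    (by decide +kernel)

end Pool.Agent.Lib.MP_af3a4a_an.P1.CHK.DATA.N5s
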