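import Pool.Agent.Lib.MP_af3a4a_an.P1.CHK.SWP.Item
import Pool.Agent.Lib.MP_af3a4a_an.P1.CHK.DATA.N5s.C0
import Pool.Agent.Lib.MP_af3a4a_an.P1.CHK.DATA.N5s.Z1
import Pool.Agent.Lib.MP_af3a4a_an.P1.CHK.DATA.F5.W528a
import Pool.Agent.Lib.MP_af3a4a_an.P1.CHK.DATA.F5.W576a
import Pool.Agent.Lib.MP_af3a4a_an.P1.CHK.DATA.F5.W624a

/-! chunks for N = 5 (generated) -/

set_option autoImplicit false
set_option maxRecDepth 100000

namespace Pool.Agent.Lib.MP_af3a4a_an.P1.CHK.DATA.N5s

open BOX SWP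

def t12 : Tree := (.sr 2816 (.sg 44 (.sr 2688 (.sg 42 (.sR 2400 (.sR 2272 (.leaf 0x410500000c28000140c000e9980411005) (.sR 2336 (.leaf 0x400640000428001169b80000280401005) (.leaf 0x3d07000008280021811043950803d1005))) (.sR 2464 (.leaf 0x3d0780001028003190ec9110e6a3d1005) (.sR 2528 (.leaf 0x3807c0001428004198f87d76080381005) (.leaf 0x3808000020280051a1006558880381005)))) (.sR 2464 (.sR 2336 (.sR 2272 (.leaf 0x3e0600000c280071619000587803e1005) (.leaf 0x3d06c0000428008179005c1e7803d1005)) (.sR 2400 (.leaf 0x3c070000082800918110459e9803c1005) (.leaf 0x3c078000102800a190ec915ef6a3c1005))) (.leaf 0x4006000018280061608c0000280401005))) (.sg 42 (.sR 2400 (.sR 2272 (.leaf 0x410480000c2800b13090071b180411005) (.sR 2336 (.leaf 0x41058000042800c150d8008c080411005) (.leaf 0x41058000082800d150b40150a80411005))) (.sR 2464 (.leaf 0x40074000102800e1891c2878c80401005) (.sR 2528 (.leaf 0x3907c000142800f198f87bf0480391005) (.leaf 0x3808000020280101a1006558880381005)))) (.sR 2400 (.sR 2272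 (.sr 2752 (.leaf 0x400540000028015148e00000280401005) (.leaf 0x440580000028016151100377380441005)) (.sR 2336 (.leaf 0x440580000428011150d80873d80441005) (.leaf 0x3e06c00008280121795401f88803e1005))) (.sR 2464 (.leaf 0x4007400010280131891c2878c80401005) (.sR 2528 (.leaf 0x3907c0001428014198f87bf0480391005) (.leaf 3)))))) (.sr 2688 (.sg 46 (.sR 2336 (.sR 2272 (.leaf 0x410680000c28019170f87494580411005) (.leaf 0x41070000042801a180d8cb9c280411005)) (.sR 2464 (.leaf 0x4105800034280171509404ade80411005) (.leaf 0x4006000018280181608c0000280401005))) (.sR 2336 (.sR 2272 (.leaf 0x3c0680000c2801d170f87761e803c1005) (.leaf 0x3d070000042801e180d8cc453803d1005)) (.sR 2464 (.leaf 0x42054000302801b148843900480421005) (.leaf 0x41064000182801c168a00289e80411005)))) (.sR 2464 (.sg 46 (.sR 2336 (.sR 2272 (.sr 2752 (.leaf 0x3e05c0000028022159540051d803e1005) (.leaf 0x410500000028023140c000e9980411005)) (.leaf 0x41054000042801f148b80117480411005)) (.sR 2400 (.leaf 0x400700000828020181104085980401005)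 (.leaf 0x3d0780001028021190ec9110e6a3d1005))) (.sR 2336 (.sR 2272 (.leaf 0x3f0680000c28024170f874945803f1005) (.leaf 0x3d06c0000428025179005c1e7803d1005)) (.sR 2400 (.leaf 0x3d07000008280261811043950803d1005) (.leaf 3)))) (.leaf 3)))) (.sR 2464 (.sg 44 (.sr 2944 (.sg 42 (.sR 2336 (.sR 2272 (.sr 2880 (.leaf 0x3f058000002802a1511000388803f1005) (.leaf 0x41050000002802b140c000e9980411005)) (.leaf 0x4204c00024280271388c1dd2980421005)) (.sR 2400 (.leaf 0x4205400008280281489c0c2a880421005) (.leaf 0x4407000010280291817002e5180441005))) (.sR 2336 (.sr 2880 (.sR 2272 (.leaf 0x43058000002802d1511001f7380431005) (.leaf 0x430640001c2802e169b8004f580431005)) (.sR 2272 (.leaf 0x43058000002802f1511001f7380431005) (.leaf 0x400580001c28030150d80000280401005))) (.sR 2400 (.leaf 0x3d0580002c2802c150b40b2e0803d1005) (.leaf 3)))) (.sR 2336 (.sg 42 (.sR 2272 (.sr 3008 (.leaf 0x400500000028032140c00000280401005) (.leaf 0x400500000028033140c00000280401005)) (.leaf 0x4305c0002828031159000265080431005))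 (.sR 2272 (.sr 3008 (.leaf 0x4204c0000028034138a807a3380421005) (.leaf 0x4104c0000028035138a801fe580411005)) (.leaf 3))) (.leaf 3))) (.sR 2336 (.sr 2944 (.sg 46 (.sR 2272 (.sr 2880 (.leaf 0x410500000028037140c000e9980411005) (.leaf 0x430540000028038148e00415f80431005)) (.leaf 0x4204c00004280361388c1dd2980421005)) (.sR 2272 (.sr 2880 (.leaf 0x3f05c00000280391595400149803f1005) (.leaf 3)) (.leaf 3))) (.leaf 3)) (.leaf 3))) (.leaf 3)))
theorem k12 : ChunkP 5 5 2560 3072 40 48 2208 2592 :=
  chkZ_sound (Q := 40) (C := []) (Z := [z482, z483, z484, z485, z486, z487, z488, z489, z490, z491, z492, z493, z494, z495, z496, z497, z498, z499, z500, z501, z502, z503, z504, z505, z506, z507, z508, z509, z510, z511, z512, z513, z514, z515, z516, z517, z518, z519, z520, z521, z522, z523, z524, z525, z526, z527, z528, z529, z530, z531, z532, z533, z534, z535, z536, z537, z538, z539])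
    (T := [f_w552_568_0_60_20s, f_w568_584_0_50_30s, f_w584_600_0_50_30s, f_w552_568_0_50_40s, f_w600_616_0_50_30s, f_w616_632_0_50_30s, f_w616_648_0_50_10s, f_w568_584_0_60_20s, f_w632_648_0_50_30s, f_w568_584_0_55_40s, f_w568_584_0_60_40s, f_w584_600_0_55_40s, f_w584_616_0_50_10s, f_w584_616_0_50_40s]) (t := t12)
    all_nil
    (all_cons z482P (all_cons z483P (all_cons z484P (all_cons z485P (all_cons z486P (all_cons z487P (all_cons z488P (all_cons z489P (all_cons z490P (all_cons z491P (all_cons z492P (all_cons z493P (all_cons z494P (all_cons z495P (all_cons z496P (all_cons z497P (all_cons z498P (all_cons z499P (all_cons z500P (all_cons z501P (all_cons z502P (all_cons z503P (all_cons z504P (all_cons z505P (all_cons z506P (all_cons z507P (all_cons z508P (all_cons z509P (all_cons z510P (all_cons z511P (all_cons z512P (all_cons z513P (all_cons z514P (all_cons z515P (all_cons z516P (all_cons z517P (all_cons z518P (all_cons z519P (all_cons z520P (all_cons z521P (all_cons z522P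 (all_cons z523P (all_cons z524P (all_cons z525P (all_cons z526P (all_cons z527P (all_cons z528P (all_cons z529P (all_cons z530P (all_cons z531P (all_cons z532P (all_cons z533P (all_cons z534P (all_cons z535P (all_cons z536P (all_cons z537P (all_cons z538P (all_cons z539P all_nil))))))))))))))))))))))))))))))))))))))))))))))))))))))))))
    (all_cons f_w552_568_0_60_20s_p (all_cons f_w568_584_0_50_30s_p (all_cons f_w584_600_0_50_30s_p (all_cons f_w552_568_0_50_40s_p (all_cons f_w600_616_0_50_30s_p (all_cons f_w616_632_0_50_30s_p (all_cons f_w616_648_0_50_10s_p (all_cons f_w568_584_0_60_20s_p (all_cons f_w632_648_0_50_30s_p (all_cons f_w568_584_0_55_40s_p (all_cons f_w568_584_0_60_40s_p (all_cons f_w584_600_0_55_40s_p (all_cons f_w584_616_0_50_10s_p (all_cons f_w584_616_0_50_40s_p all_nil))))))))))))))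
    (by decide +kernel)
def t13 : Tree := (.sR 2464 (.sg 56 (.sr 2816 (.sg 52 (.sr 2688 (.sg 50 (.sR 2336 (.leaf 0x4004c00000280001388c0000280401005) (.leaf 0x4105c0000c28001158ac019ae80411005)) (.sR 2336 (.leaf 0x400580000028002150d80000280401005) (.leaf 3))) (.sR 2336 (.sg 50 (.sR 2272 (.leaf 0x410680000428003170f8781bf6a411005) (.leaf 0x3e0700000828004180d8cbde0803e1005)) (.sR 2272 (.leaf 0x3d0680000428005170f878b676a3d1005) (.leaf 3))) (.leaf 3))) (.sR 2336 (.sr 2688 (.sg 54 (.leaf 0x3e05c000002800616140006eb803e1005) (.leaf 3)) (.leaf 3)) (.leaf 3))) (.leaf 3)) (.leaf 3)) (.leaf 3))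
theorem k13 : ChunkP 5 5 2560 3072 48 64 2208 2592 :=
  chkZ_sound (Q := 40) (C := []) (Z := [z540, z541, z542, z543, z544, z545, z546])
    (T := [f_w552_584_0_40_10s, f_w552_568_0_50_40s, f_w568_584_0_50_30s, f_w584_616_0_40_10s]) (t := t13)
    all_nil
    (all_cons z540P (all_cons z541P (all_cons z542P (all_cons z543P (all_cons z544P (all_cons z545P (all_cons z546P all_nil)))))))
    (all_cons f_w552_584_0_40_10s_p (all_cons f_w552_568_0_50_40s_p (all_cons f_w568_584_0_50_30s_p (all_cons f_w584_616_0_40_10s_p all_nil))))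
    (by decide +kernel)
def t14 : Tree := (.sg 96 (.sg 80 (.leaf 3) (.leaf 3)) (.leaf 3))
theorem k14 : ChunkP 5 5 2560 3072 64 101 2208 2592 :=
  chkZ_sound (Q := 40) (C := []) (Z := [])
    (T := []) (t := t14)
    all_nil
    all_nil
    all_nil
    (by decide +kernel)
def t15 : Tree := (.sr 3584 (.sg 64 (.sg 32 (.sg 16 (.sR 2336 (.sg 8 (.leaf 0x3d060080001e0091388c307b2803d1000) (.sr 3328 (.leaf 0x40064080001e004140a0000026a401000) (.leaf 0x3d06c040001c00e148b809654803d1000))) (.sR 2464 (.leaf 0x3e0740400c1a001150940ff44803e1000) (.leaf 0x3d084040181a001170b80aa486a3d1000))) (.sg 24 (.sR 2464 (.sr 3328 (.sR 2336 (.sg 20 (.leaf 0x3d068040001c005140a013bab803d1000) (.leaf 0x3f064040001c0071388c0c236803f1000)) (.leaf 0x3e0780400c1a006158ac0639c803e1000)) (.sR 2336 (.leaf 0x4006c000001a002140a00000280401000) (.leaf 0x3f070000101a0021488427246803f1000))) (.leaf 0x3d080000181800a1608c307b1803d1000)) (.sr 3328 (.sg 28 (.sR 2336 (.sr 3200 (.leaf 0x3f04c1c000280001388c0c236803f1005)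 (.leaf 0x3d068040001c00b140a013bab803d1000)) (.sR 2464 (.leaf 0x400740400c1a000150940000280401000) (.leaf 0x3e080000281a000168a009886803e1000))) (.sR 2464 (.sr 3200 (.sR 2336 (.sg 30 (.leaf 0x4004c1c000280021388c0000280401005) (.sR 2272 (.leaf 0x3f0500000428003140c000e99803f1005) (.leaf 0x3e05c00008280041590001125803e1005))) (.leaf 0x410541c01028001148842724680411005)) (.sR 2336 (.sg 30 (.leaf 0x4004c00020280061388c0000280401005) (.leaf 0x3f04c1c000280071388c0c236803f1005)) (.leaf 0x3f0581c010280051509404ade803f1005))) (.leaf 0x3d0940002c1a008198f87624c803d1000))) (.sR 2336 (.sg 28 (.leaf 0x3e068000001a00f1388c1dd29803e1000) (.sr 3456 (.leaf 0x3f06c000001a00c140a00289e803f1000) (.leaf 3))) (.sR 2464 (.leaf 0x400780000c18010150940000280401000) (.leaf 3)))))) (.sg 48 (.sR 2464 (.sg 40 (.sr 3328 (.sg 36 (.sr 3200 (.sg 34 (.sR 2336 (.sR 2272 (.leaf 0x3f04c0000428009138a801fe5803f1005) (.leaf 0x3e058000082800a150d8022bf803e1005)) (.leaf 0x3f0581c010280081509404ade803f1005)) (.sR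 2336 (.sR 2272 (.leaf 0x41048000042800c13090071b180411005) (.leaf 0x3f054000082800d148b801174803f1005)) (.leaf 0x40060000242800b160c80000280401005))) (.sR 2336 (.sg 34 (.sR 2272 (.leaf 0x4004c000042800e138a80000280401005) (.leaf 0x3e058000082800f150d8022bf803e1005)) (.sR 2272 (.leaf 0x41048000042801013090071b180411005) (.leaf 3))) (.leaf 3))) (.sR 2336 (.sr 3200 (.sg 38 (.sR 2272 (.sr 3136 (.leaf 0x3f0540000428012148e000762803f1005) (.leaf 0x400500000428013140c00000280401005)) (.leaf 0x420500000828011140a00988680421005)) (.sR 2272 (.sr 3136 (.leaf 0x410500000428014140c000e9980411005) (.leaf 0x400500000428015140c00000280401005)) (.leaf 3))) (.sg 38 (.sR 2272 (.leaf 0x4104c0001c28016138a801fe580411005) (.leaf 3)) (.leaf 3))) (.leaf 3))) (.sR 2336 (.sg 36 (.sr 3456 (.sg 34 (.leaf 0x4006c000001a00d140a00000280401000) (.leaf 3)) (.leaf 3)) (.leaf 3)) (.leaf 3))) (.sR 2336 (.sr 3328 (.sg 44 (.sr 3200 (.sg 42 (.sR 2272 (.sr 3136 (.leaf 0x400480000428017130900000280401005) (.leaf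 3)) (.leaf 3)) (.leaf 3)) (.leaf 3)) (.leaf 3)) (.leaf 3)) (.leaf 3))) (.leaf 3)) (.leaf 3))) (.sg 96 (.sg 80 (.leaf 3) (.leaf 3)) (.leaf 3))) (.sg 64 (.sg 32 (.sg 16 (.sR 2336 (.leaf 0x3c0700001418003140a0200cf803c1000) (.sR 2464 (.leaf 0x3d0780000c18003150942ff296a3d1000) (.leaf 3))) (.sR 2336 (.sg 24 (.leaf 0x3d06c00014180111388c307b2803d1000) (.leaf 3)) (.leaf 3))) (.sg 48 (.leaf 3) (.leaf 3))) (.sg 96 (.sg 80 (.leaf 3) (.leaf 3)) (.leaf 3))))
theorem k15 : ChunkP 5 5 3072 4096 0 101 2208 2592 :=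
  chkZ_sound (Q := 40) (C := [c7.c, c10.c, c16.c, c19.c, c3.c, c4.c, c5.c, c6.c, c8.c, c9.c, c11.c, c12.c, c13.c, c14.c, c15.c, c17.c, c18.c, c20.c]) (Z := [z547, z548, z549, z550, z551, z552, z553, z554, z555, z556, z557, z558, z559, z560, z561, z562, z563, z564, z565, z566, z567, z568, z569, z570])
    (T := [f_w552_584_0_70_0s, f_w552_568_0_60_20s, f_w568_584_0_60_20s, f_w584_616_0_70_0s, f_w584_616_0_60_0s, f_w552_584_0_80_10s, f_w616_648_0_70_0s, f_w552_568_0_60_40s, f_w552_584_0_60_0s, f_w584_616_0_65_35s, f_w616_648_0_60_0s, f_w616_648_0_65_30s]) (t := t15)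
    (all_cons p7 (all_cons p10 (all_cons p16 (all_cons p19 (all_cons p3 (all_cons p4 (all_cons p5 (all_cons p6 (all_cons p8 (all_cons p9 (all_cons p11 (all_cons p12 (all_cons p13 (all_cons p14 (all_cons p15 (all_cons p17 (all_cons p18 (all_cons p20 all_nil))))))))))))))))))
    (all_cons z547P (all_cons z548P (all_cons z549P (all_cons z550P (all_cons z551P (all_cons z552P (all_cons z553P (all_cons z554P (all_cons z555P (all_cons z556P (all_cons z557P (all_cons z558P (all_cons z559P (all_cons z560P (all_cons z561P (all_cons z562P (all_cons z563P (all_cons z564P (all_cons z565P (all_cons z566P (all_cons z567P (all_cons z568P (all_cons z569P (all_cons z570P all_nil))))))))))))))))))))))))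
    (all_cons f_w552_584_0_70_0s_p (all_cons f_w552_568_0_60_20s_p (all_cons f_w568_584_0_60_20s_p (all_cons f_w584_616_0_70_0s_p (all_cons f_w584_616_0_60_0s_p (all_cons f_w552_584_0_80_10s_p (all_cons f_w616_648_0_70_0s_p (all_cons f_w552_568_0_60_40s_p (all_cons f_w552_584_0_60_0s_p (all_cons f_w584_616_0_65_35s_p (all_cons f_w616_648_0_60_0s_p (all_cons f_w616_648_0_65_30s_p all_nil))))))))))))
    (by decide +kernel)

end Pool.Agent.Lib.MP_af3a4a_an.P1.CHK.DATA.N5s
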