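import Pool.Agent.Lib.MP_af3a4a_an.P1.CHK.DATA.N5s.K0
import Pool.Agent.Lib.MP_af3a4a_an.P1.CHK.DATA.N5s.K1
import Pool.Agent.Lib.MP_af3a4a_an.P1.CHK.DATA.N5s.K2

/-! glue for N = 5 (generated) -/

set_option autoImplicit false
set_option maxRecDepth 100000

namespace Pool.Agent.Lib.MP_af3a4a_an.P1.CHK.DATA.N5s

open BOX

theorem g0 : ChunkP 5 5 0 2048 0 101 2208 2592 := ChunkP.r k0 k1
theorem g1 : ChunkP 5 5 2048 2560 0 32 2208 2592 := ChunkP.g k2 k3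
theorem g2 : ChunkP 5 5 2048 2560 32 48 2208 2592 := ChunkP.g k4 k5
theorem g3 : ChunkP 5 5 2048 2560 32 64 2208 2592 := ChunkP.g g2 k6
theorem g4 : ChunkP 5 5 2048 2560 0 64 2208 2592 := ChunkP.g g1 g3
theorem g5 : ChunkP 5 5 2048 2560 0 101 2208 2592 := ChunkP.g g4 k7
theorem g6 : ChunkP 5 5 2560 3072 0 32 2208 2592 := ChunkP.g k8 k9
theorem g7 : ChunkP 5 5 2560 3072 32 40 2208 2592 := ChunkP.r k10 k11
theorem g8 : ChunkP 5 5 2560 3072 32 48 2208 2592 := ChunkP.g g7 k12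
theorem g9 : ChunkP 5 5 2560 3072 32 64 2208 2592 := ChunkP.g g8 k13
theorem g10 : ChunkP 5 5 2560 3072 0 64 2208 2592 := ChunkP.g g6 g9
theorem g11 : ChunkP 5 5 2560 3072 0 101 2208 2592 := ChunkP.g g10 k14
theorem g12 : ChunkP 5 5 2048 3072 0 101 2208 2592 := ChunkP.r g5 g11
theorem g13 : ChunkP 5 5 2048 4096 0 101 2208 2592 := ChunkP.r g12 k15
theorem g14 : ChunkP 5 5 0 4096 0 101 2208 2592 := ChunkP.r g0 g13

/-- the slab -/
theorem slab : ChunkP 5 5 0 4096 0 101 2208 2592 := g14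

end Pool.Agent.Lib.MP_af3a4a_an.P1.CHK.DATA.N5s
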