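import Pool.Agent.Lib.MP_af3a4a_an.P1.CHK.SWP.Item
import Pool.Agent.Lib.MP_af3a4a_an.P1.CHK.DATA.N5s.Z0
import Pool.Agent.Lib.MP_af3a4a_an.P1.CHK.DATA.F5.W528a
import Pool.Agent.Lib.MP_af3a4a_an.P1.CHK.DATA.F5.W576a
import Pool.Agent.Lib.MP_af3a4a_an.P1.CHK.DATA.F5.W624a

/-! chunks for N = 5 (generated) -/

set_option autoImplicit false
set_option maxRecDepth 100000

namespace Pool.Agent.Lib.MP_af3a4a_an.P1.CHK.DATA.N5s

open BOX SWP

def t0 : Tree := (.sr 512 (.sg 64 (.sg 32 (.sg 16 (.sR 2336 (.leaf 0x380700000028000180b556efa6a381005) (.sR 2464 (.leaf 0x380700000428001190c118e406a381005) (.leaf 0x3807800008280021a0d0ecde680381005))) (.sR 2336 (.leaf 0x380700000028003180b556efa6a381005) (.sR 2464 (.leaf 0x380700000428004190c118e406a381005) (.leaf 0x3807800008280051a0d0ecde680381005)))) (.sg 48 (.sR 2336 (.leaf 0x380700000028006180b556efa6a381005) (.sR 2464 (.leaf 0x380700000428007190c118e406a381005) (.leaf 0x3807800008280081a0d0ecde680381005))) (.sR 2336 (.leaf 0x380700000028009180b556efa6a381005) (.sR 2464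 (.leaf 0x38070000042800a190c118e406a381005) (.leaf 0x38078000082800b1a0d0ecde680381005))))) (.sg 96 (.sg 80 (.sR 2336 (.leaf 0x38070000002800c180b556efa6a381005) (.sR 2464 (.leaf 0x38070000042800d190c118e406a381005) (.leaf 0x38078000082800e1a0d0ecde680381005))) (.sR 2336 (.leaf 0x38070000002800f180b556efa6a381005) (.sR 2464 (.leaf 0x380700000428010190c118e406a381005) (.leaf 0x3807800008280111a0d0ecde680381005)))) (.sR 2336 (.leaf 0x380700000028012180b556efa6a381005) (.sR 2464 (.leaf 0x380700000428013190c118e406a381005) (.leaf 0x3807800008280141a0d0ecde680381005))))) (.sg 64 (.sg 32 (.sg 16 (.sR 2336 (.leaf 0x380700000028015180b556efa6a381005) (.sR 2464 (.leaf 0x380700000428016190c118e406a381005) (.leaf 0x3807800008280171a0d0ecde680381005))) (.sR 2336 (.leaf 0x380700000028018180b556efa6a381005) (.sR 2464 (.leaf 0x380700000428019190c118e406a381005) (.leaf 0x38078000082801a1a0d0ecde680381005)))) (.sg 48 (.sR 2336 (.leaf 0x38070000002801b180b556efa6a381005) (.sR 2464 (.leaf 0x38070000042801c190c118e406a381005)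 (.leaf 0x38078000082801d1a0d0ecde680381005))) (.sR 2336 (.leaf 0x38070000002801e180b556efa6a381005) (.sR 2464 (.leaf 0x38070000042801f190c118e406a381005) (.leaf 0x3807800008280201a0d0ecde680381005))))) (.sg 96 (.sg 80 (.sR 2336 (.leaf 0x380700000028021180b556efa6a381005) (.sR 2464 (.leaf 0x380700000428022190c118e406a381005) (.leaf 0x3807800008280231a0d0ecde680381005))) (.sR 2336 (.leaf 0x380700000028024180b556efa6a381005) (.sR 2464 (.leaf 0x380700000428025190c118e406a381005) (.leaf 0x3807800008280261a0d0ecde680381005)))) (.leaf 3))))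
theorem k0 : ChunkP 5 5 0 1024 0 101 2208 2592 :=
  chkZ_sound (Q := 40) (C := []) (Z := [z0, z1, z2, z3, z4, z5, z6, z7, z8, z9, z10, z11, z12, z13, z14, z15, z16, z17, z18, z19, z20, z21, z22, z23, z24, z25, z26, z27, z28, z29, z30, z31, z32, z33, z34, z35, z36, z37, z38])
    (T := [f_w552_584_0_5_0s, f_w584_616_0_10_0s, f_w616_648_0_10_0s]) (t := t0)
    all_nil
    (all_cons z0P (all_cons z1P (all_cons z2P (all_cons z3P (all_cons z4P (all_cons z5P (all_cons z6P (all_cons z7P (all_cons z8P (all_cons z9P (all_cons z10P (all_cons z11P (all_cons z12P (all_cons z13P (all_cons z14P (all_cons z15P (all_cons z16P (all_cons z17P (all_cons z18P (all_cons z19P (all_cons z20P (all_cons z21P (all_cons z22P (all_cons z23P (all_cons z24P (all_cons z25P (all_cons z26P (all_cons z27P (all_cons z28P (all_cons z29P (all_cons z30P (all_cons z31P (all_cons z32P (all_cons z33P (all_cons z34P (all_cons z35P (all_cons z36P (all_cons z37P (all_cons z38P all_nil)))))))))))))))))))))))))))))))))))))))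
    (all_cons f_w552_584_0_5_0s_p (all_cons f_w584_616_0_10_0s_p (all_cons f_w616_648_0_10_0s_p all_nil)))
    (by decide +kernel)
def t1 : Tree := (.sr 1536 (.sg 64 (.sg 32 (.sg 16 (.sR 2336 (.leaf 0x3b0580000c28000150d80cc1c6a3b1005) (.sR 2464 (.leaf 0x380640001428001168ec1496d55381005) (.leaf 0x380700000828002181000ec4e6a381005))) (.sR 2336 (.leaf 0x3e0540000c28003148b804fca6a3e1005) (.sR 2464 (.leaf 0x390640001428004168ec1055955391005) (.leaf 0x3c07000008280051810003f416a3c1005)))) (.sg 48 (.sR 2336 (.leaf 0x3d05c0000c2800615900022b2553d1005) (.sR 2464 (.leaf 0x390640001428007168ec117a940391005) (.leaf 0x380700000828008181000ec4e6a381005))) (.sR 2336 (.leaf 0x390700000c28009180b55890b6a391005) (.sR 2464 (.leaf 0x38070000142800a190c118e406a381005) (.leaf 0x38078000082800b1a0d0ecde680381005))))) (.sg 96 (.sg 80 (.sR 2336 (.leaf 0x380700000c2800c180b556efa6a381005) (.sR 2464 (.leaf 0x38070000142800d190c118e406a381005) (.leaf 0x38078000082800e1a0d0ecde680381005))) (.sR 2336 (.leaf 0x380700000c2800f180b556efa6a381005)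 (.sR 2464 (.leaf 0x380700001428010190c118e406a381005) (.leaf 0x3807800008280111a0d0ecde680381005)))) (.leaf 3))) (.sg 64 (.sg 32 (.sg 16 (.sr 1792 (.sR 2336 (.leaf 0x3b0640000428012170f879bbc6a3b1005) (.sR 2464 (.leaf 0x3d0740001028013188e0ae425803d1005) (.leaf 0x3e07800000280141912c229746a3e1005))) (.sg 8 (.sR 2336 (.leaf 0x3a05c00004280151614003c4f803a1005) (.sR 2464 (.leaf 0x4006c000102801617954000026a401005) (.leaf 0x380740000028017189400685980381005))) (.sR 2336 (.leaf 0x3e0540000428018148b80449c803e1005) (.sR 2464 (.leaf 0x3d0600001028019160c806b7f803d1005) (.leaf 0x3f060000002801a1608c0c236803f1005))))) (.sr 1792 (.sR 2336 (.leaf 0x3f050000042801b140a00289e803f1005) (.sg 24 (.sR 2464 (.leaf 0x3d074000102801c188e0ae425803d1005) (.leaf 0x39078000002801d1912c2633d80391005)) (.sR 2464 (.leaf 0x3f074000102801e188e0aa65a6a3f1005) (.leaf 0x3b07c000002801f198f878d19803b1005)))) (.sg 24 (.sr 1920 (.sR 2336 (.leaf 0x3c0640000428020170f87761e803c1005) (.sR 2464 (.leaf 0x3a0740001028021188e0b0b23803a1005) (.leaf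 0x3807c0000028022198f87d76080381005))) (.sR 2336 (.leaf 0x3c05c00004280231614001b55803c1005) (.sR 2464 (.leaf 0x3b06800010280241711c04564803b1005) (.leaf 0x3c0700000028025181000437d803c1005)))) (.sr 1920 (.sR 2336 (.leaf 0x410640000428026170f8781bf6a411005) (.sR 2464 (.leaf 0x3f0740001028027188e0ad57e803f1005) (.leaf 0x3e07c0000028028198f8752f9803e1005))) (.sR 2336 (.leaf 0x3d0580000428029150d804d46803d1005) (.sR 2464 (.leaf 0x3f05c000102802a158ac019ae803f1005) (.leaf 0x3f06c000002802b178d8008c0803f1005))))))) (.sg 48 (.sr 1792 (.sR 2336 (.leaf 0x40050000042802c140a00000280401005) (.sg 40 (.sR 2464 (.leaf 0x41064000142802d168ec006016a411005) (.leaf 0x3907c000002802e198f87bf0480391005)) (.sR 2464 (.leaf 0x39064000142802f168ec117a940391005) (.leaf 0x380700000828030181000ec4e6a381005)))) (.sg 40 (.sr 1920 (.sR 2336 (.leaf 0x400680000428031178d0eb12580401005) (.sR 2464 (.leaf 0x3b0780001028032190c12dcdf803b1005) (.leaf 0x3a08000000280331a0d0ec87f803a1005))) (.sR 2336 (.leaf 0x3c05c00004280341614001b55803c1005)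 (.sR 2464 (.leaf 0x4106800010280351711c002da80411005) (.sg 36 (.leaf 0x3c08000000280361a0d0ebe11803c1005) (.leaf 0x3808000000280371a0d0ecde680381005))))) (.sR 2336 (.sr 1920 (.leaf 0x400540000c28039148b8000026a401005) (.leaf 0x40064000042803a170f8745f280401005)) (.sR 2464 (.leaf 0x410640001828038168ec0063580411005) (.sr 1920 (.leaf 0x3b070000082803b181000683c803b1005) (.leaf 0x3a07c000002803c198f87a5d9803a1005)))))) (.sr 1792 (.sR 2336 (.leaf 0x3b0600000c2803d16140026b76a3b1005) (.sR 2464 (.leaf 0x38068000142803e18110510036a381005) (.leaf 0x38078000082803f1a0d0ecde680381005))) (.sR 2336 (.sg 56 (.leaf 0x3c0500000c28041140a0200cf803c1005) (.leaf 0x3b0600000c280421614004657403b1005)) (.sR 2464 (.leaf 0x420640001828040168ec018b180421005) (.sg 56 (.leaf 0x3a07000008280431810008a306a3a1005) (.leaf 0x3807800008280441a0d0ecde680381005))))))) (.sg 96 (.sg 80 (.sR 2336 (.leaf 0x380700000c28045180b556efa6a381005) (.sR 2464 (.leaf 0x380700001428046190c118e406a381005) (.leaf 0x3807800008280471a0d0ecde680381005))) (.leaf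 3)) (.leaf 3))))
theorem k1 : ChunkP 5 5 1024 2048 0 101 2208 2592 :=
  chkZ_sound (Q := 40) (C := []) (Z := [z39, z40, z41, z42, z43, z44, z45, z46, z47, z48, z49, z50, z51, z52, z53, z54, z55, z56, z57, z58, z59, z60, z61, z62, z63, z64, z65, z66, z67, z68, z69, z70, z71, z72, z73, z74, z75, z76, z77, z78, z79, z80, z81, z82, z83, z84, z85, z86, z87, z88, z89, z90, z91, z92, z93, z94, z95, z96, z97, z98, z99, z100, z101, z102, z103, z104, z105, z106, z107, z108, z109, z110])
    (T := [f_w616_648_0_40_10s, f_w552_584_0_40_10s, f_w616_648_0_10_0s, f_w552_584_0_5_0s, f_w584_616_0_40_10s, f_w584_616_0_10_0s, f_w584_616_0_30_20s]) (t := t1)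
    all_nil
    (all_cons z39P (all_cons z40P (all_cons z41P (all_cons z42P (all_cons z43P (all_cons z44P (all_cons z45P (all_cons z46P (all_cons z47P (all_cons z48P (all_cons z49P (all_cons z50P (all_cons z51P (all_cons z52P (all_cons z53P (all_cons z54P (all_cons z55P (all_cons z56P (all_cons z57P (all_cons z58P (all_cons z59P (all_cons z60P (all_cons z61P (all_cons z62P (all_cons z63P (all_cons z64P (all_cons z65P (all_cons z66P (all_cons z67P (all_cons z68P (all_cons z69P (all_cons z70P (all_cons z71P (all_cons z72P (all_cons z73P (all_cons z74P (all_cons z75P (all_cons z76P (all_cons z77P (all_cons z78P (all_cons z79P (all_cons z80P (all_cons z81P (all_cons z82P (all_cons z83P (all_cons z84P (all_cons z85P (all_cons z86P (all_cons z87P (all_cons z88P (all_cons z89P (all_cons z90P (all_cons z91P (all_cons z92P (all_cons z93P (all_cons z94P (all_cons z95P (all_cons z96P (all_cons z97P (all_cons z98P (all_cons z99P (all_cons z100P (all_cons z101P (all_cons z102P (all_cons z103P (all_cons z104P (all_cons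 z105P (all_cons z106P (all_cons z107P (all_cons z108P (all_cons z109P (all_cons z110P all_nil))))))))))))))))))))))))))))))))))))))))))))))))))))))))))))))))))))))))
    (all_cons f_w616_648_0_40_10s_p (all_cons f_w552_584_0_40_10s_p (all_cons f_w616_648_0_10_0s_p (all_cons f_w552_584_0_5_0s_p (all_cons f_w584_616_0_40_10s_p (all_cons f_w584_616_0_10_0s_p (all_cons f_w584_616_0_30_20s_p all_nil)))))))
    (by decide +kernel)
def t2 : Tree := (.sg 8 (.sr 2304 (.sR 2336 (.leaf 0x3f0580000028000150d8008c0803f1005) (.sR 2464 (.leaf 0x400540001028001148841d5f380401005) (.leaf 0x3f06000014280021608c0c236803f1005))) (.sR 2336 (.leaf 0x3e04c00018280031388c1dd29803e1005) (.sR 2464 (.leaf 0x3c05c0000428004158ac168d5803c1005) (.leaf 0x3b06c0000828005178d80cf45803b1005)))) (.sr 2304 (.sg 12 (.sR 2336 (.leaf 0x3d0500000028006140a013bab803d1005) (.sR 2464 (.leaf 0x3e05c0000428007158ac0639c803e1005) (.leaf 0x3c06c0000828008178d80873d803c1005))) (.sR 2336 (.sr 2176 (.leaf 0x3c05c0000c2800b1614001b55803c1005) (.leaf 0x3e0540000c2800c148b80449c803e1005))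 (.sR 2464 (.leaf 0x400580000428009150940000280401005) (.leaf 0x40060000082800a1608c0000280401005)))) (.sg 12 (.sR 2336 (.sr 2432 (.leaf 0x3e04c0000c2800f1388c1dd29803e1005) (.leaf 0x3d0580000028010150d804d46803d1005)) (.sR 2464 (.leaf 0x3e054000042800d1488439004803e1005) (.leaf 0x40068000082800e170b80000280401005))) (.sr 2432 (.sR 2336 (.leaf 0x3d0580000028011150d804d46803d1005) (.sR 2464 (.leaf 0x3f05800010280121509404ade803f1005) (.leaf 0x3e06000014280131608c1dd29803e1005))) (.sR 2336 (.leaf 0x3d0540000028014148b809654803d1005) (.sR 2464 (.leaf 0x3b0640000428015168ec0950b803b1005) (.leaf 0x40074000082801618940000026a401005)))))))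
theorem k2 : ChunkP 5 5 2048 2560 0 16 2208 2592 :=
  chkZ_sound (Q := 40) (C := []) (Z := [z111, z112, z113, z114, z115, z116, z117, z118, z119, z120, z121, z122, z123, z124, z125, z126, z127, z128, z129, z130, z131, z132, z133])
    (T := [f_w552_584_0_50_10s, f_w584_616_0_50_10s, f_w616_648_0_50_10s, f_w552_584_0_40_10s, f_w584_616_0_40_10s, f_w616_648_0_40_10s, f_w552_584_0_60_0s]) (t := t2)
    all_nil
    (all_cons z111P (all_cons z112P (all_cons z113P (all_cons z114P (all_cons z115P (all_cons z116P (all_cons z117P (all_cons z118P (all_cons z119P (all_cons z120P (all_cons z121P (all_cons z122P (all_cons z123P (all_cons z124P (all_cons z125P (all_cons z126P (all_cons z127P (all_cons z128P (all_cons z129P (all_cons z130P (all_cons z131P (all_cons z132P (all_cons z133P all_nil)))))))))))))))))))))))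
    (all_cons f_w552_584_0_50_10s_p (all_cons f_w584_616_0_50_10s_p (all_cons f_w616_648_0_50_10s_p (all_cons f_w552_584_0_40_10s_p (all_cons f_w584_616_0_40_10s_p (all_cons f_w616_648_0_40_10s_p (all_cons f_w552_584_0_60_0s_p all_nil)))))))
    (by decide +kernel)
def t3 : Tree := (.sg 24 (.sr 2304 (.sg 20 (.sr 2176 (.sR 2336 (.leaf 0x3e0580001028000150d8022e16a3e1005) (.sR 2464 (.leaf 0x3b0680000c280011711c04564803b1005) (.leaf 0x390740001428002189400510f80391005))) (.sR 2336 (.leaf 0x3e04c00010280031388c1dd29803e1005) (.sR 2464 (.leaf 0x3d0600000c28004160c806b7f803d1005) (.leaf 0x3d0680001428005170b809654803d1005)))) (.sr 2176 (.sR 2336 (.leaf 0x3b0580001028006150d80cf45803b1005) (.sR 2464 (.leaf 0x3f06c0000c280071795400882803f1005) (.leaf 0x3c07400014280081894001b55803c1005))) (.sR 2336 (.leaf 0x400540000428009148b80000280401005) (.sR 2464 (.leaf 0x3f0580000c2800a1509404ade803f1005) (.leaf 0x40060000142800b1608c0000280401005))))) (.sg 20 (.sr 2432 (.sR 2336 (.leaf 0x3e050000042800c140a009886803e1005) (.sR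 2464 (.leaf 0x3c064000082800d168ec060ca803c1005) (.leaf 0x3e074000002800e18940006eb803e1005))) (.sR 2336 (.leaf 0x3e04c000042800f1388c1dd29803e1005) (.sR 2464 (.leaf 0x400600000828010160c80000280401005) (.leaf 0x3a07000000280111810009405803a1005)))) (.sr 2432 (.sR 2336 (.leaf 0x3e04c00004280121388c1dd29803e1005) (.sR 2464 (.leaf 0x3e05c0000828013158ac0639c803e1005) (.leaf 0x3c0700000028014181000437d803c1005))) (.sR 2336 (.sg 22 (.leaf 0x3e0500000428017140a009886803e1005) (.leaf 0x3f04c00004280181388c0c236803f1005)) (.sR 2464 (.leaf 0x3e0580000828015150940ff44803e1005) (.leaf 0x3f06c0000028016178d8008c0803f1005)))))) (.sr 2304 (.sg 28 (.sr 2176 (.sR 2336 (.leaf 0x3e0580001028019150d8022bf803e1005) (.sR 2464 (.leaf 0x3b0680000c2801a1711c04564803b1005) (.leaf 0x3c070000142801b181000437d803c1005))) (.sR 2336 (.leaf 0x40054000042801c148b80000280401005) (.sR 2464 (.leaf 0x42060000082801d160c80309880421005) (.leaf 0x3e068000002801e170b80449c803e1005)))) (.sr 2176 (.sR 2336 (.leaf 0x4105c000102801f16140001bc80411005)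 (.sR 2464 (.leaf 0x3d0680000c280201711c0196c803d1005) (.leaf 0x3f0700001428021181000044f803f1005))) (.sR 2464 (.sg 30 (.sR 2336 (.leaf 0x3e0540001028023148b80449c803e1005) (.leaf 0x3e0600000c28024160c803098803e1005)) (.sR 2336 (.leaf 0x3f0540001028025148b801174803f1005) (.leaf 0x3d0680000c280261711c0196c803d1005))) (.leaf 0x3f0640000028022168a00289e803f1005)))) (.sg 28 (.sr 2432 (.sR 2336 (.sg 26 (.leaf 0x3f0540000428029148b801174803f1005) (.leaf 0x3f050000042802a140a00289e803f1005)) (.sR 2464 (.leaf 0x3f05800008280271509404ade803f1005) (.leaf 0x400680000028028170b80000280401005))) (.sg 26 (.sR 2336 (.sR 2272 (.leaf 0x3b05c000182802d1595401f4e803b1005) (.leaf 0x3b0640001c2802e169b800d3b803b1005)) (.sR 2464 (.leaf 0x3f060000082802b160c800c48803f1005) (.leaf 0x3d070000002802c1810002650803d1005))) (.sR 2336 (.sR 2272 (.leaf 0x3f05c00018280311595400149803f1005) (.leaf 0x3e0640001c28032169b80023c803e1005)) (.sR 2464 (.leaf 0x3f05c000082802f158ac019ae803f1005) (.leaf 0x3d06c0000028030178d804d46803d1005))))) (.sr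 2432 (.sg 30 (.sR 2336 (.leaf 0x3f04c00004280331388c0c236803f1005) (.sR 2464 (.leaf 0x3f0640000828034168ec00635803f1005) (.leaf 0x3c0700000028035181000437d803c1005))) (.sR 2336 (.leaf 0x410540000428036148b80117480411005) (.sR 2464 (.leaf 0x3f0600000828037160c800c48803f1005) (.leaf 0x420700000028038181000112580421005)))) (.sg 30 (.sR 2336 (.sR 2272 (.leaf 0x3d05c000182803b1595400b72803d1005) (.leaf 0x3e0600001c2803c16140006eb803e1005)) (.sR 2464 (.leaf 0x400580000828039150940000280401005) (.leaf 0x3f070000002803a181000044f803f1005))) (.sR 2464 (.sR 2336 (.sR 2272 (.leaf 0x3d058000182803e1511001f73803d1005) (.leaf 0x3c0600001c2803f1614001b55803c1005)) (.sR 2400 (.leaf 0x3b06c00020280401795408cb2803b1005) (.leaf 0x3f07400024280411891c357a36a3f1005))) (.leaf 0x3f06c000002803d178d8008c0803f1005)))))))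
theorem k3 : ChunkP 5 5 2048 2560 16 32 2208 2592 :=
  chkZ_sound (Q := 40) (C := []) (Z := [z134, z135, z136, z137, z138, z139, z140, z141, z142, z143, z144, z145, z146, z147, z148, z149, z150, z151, z152, z153, z154, z155, z156, z157, z158, z159, z160, z161, z162, z163, z164, z165, z166, z167, z168, z169, z170, z171, z172, z173, z174, z175, z176, z177, z178, z179, z180, z181, z182, z183, z184, z185, z186, z187, z188, z189, z190, z191, z192, z193, z194, z195, z196, z197, z198, z199])
    (T := [f_w616_648_0_50_10s, f_w552_584_0_50_10s, f_w584_616_0_50_10s, f_w584_616_0_40_10s, f_w552_584_0_40_10s, f_w616_648_0_40_10s, f_w552_568_0_60_20s, f_w568_584_0_60_20s, f_w584_600_0_50_30s, f_w600_616_0_50_30s]) (t := t3)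
    all_nil
    (all_cons z134P (all_cons z135P (all_cons z136P (all_cons z137P (all_cons z138P (all_cons z139P (all_cons z140P (all_cons z141P (all_cons z142P (all_cons z143P (all_cons z144P (all_cons z145P (all_cons z146P (all_cons z147P (all_cons z148P (all_cons z149P (all_cons z150P (all_cons z151P (all_cons z152P (all_cons z153P (all_cons z154P (all_cons z155P (all_cons z156P (all_cons z157P (all_cons z158P (all_cons z159P (all_cons z160P (all_cons z161P (all_cons z162P (all_cons z163P (all_cons z164P (all_cons z165P (all_cons z166P (all_cons z167P (all_cons z168P (all_cons z169P (all_cons z170P (all_cons z171P (all_cons z172P (all_cons z173P (all_cons z174P (all_cons z175P (all_cons z176P (all_cons z177P (all_cons z178P (all_cons z179P (all_cons z180P (all_cons z181P (all_cons z182P (all_cons z183P (all_cons z184P (all_cons z185P (all_cons z186P (all_cons z187P (all_cons z188P (all_cons z189P (all_cons z190P (all_cons z191P (all_cons z192P (all_cons z193P (all_cons z194P (all_cons z195P (all_cons z196P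 (all_cons z197P (all_cons z198P (all_cons z199P all_nil))))))))))))))))))))))))))))))))))))))))))))))))))))))))))))))))))
    (all_cons f_w616_648_0_50_10s_p (all_cons f_w552_584_0_50_10s_p (all_cons f_w584_616_0_50_10s_p (all_cons f_w584_616_0_40_10s_p (all_cons f_w552_584_0_40_10s_p (all_cons f_w616_648_0_40_10s_p (all_cons f_w552_568_0_60_20s_p (all_cons f_w568_584_0_60_20s_p (all_cons f_w584_600_0_50_30s_p (all_cons f_w600_616_0_50_30s_p all_nil))))))))))
    (by decide +kernel)
def t4 : Tree := (.sr 2304 (.sg 36 (.sr 2176 (.sR 2336 (.leaf 0x3f05c0000c2800016140001bc803f1005) (.sR 2464 (.leaf 0x3e06800004280011711c00b5d803e1005) (.leaf 0x3d07800000280021912c18ce2803d1005))) (.sg 34 (.sR 2336 (.leaf 0x3f0540000c28003148b801174803f1005) (.sR 2464 (.leaf 0x3c06800004280041711c02cd9803c1005) (.leaf 0x400740000028005189400000280401005))) (.sR 2336 (.leaf 0x4005c0000c28006161400000280401005) (.sR 2464 (.leaf 0x3c06800004280071711c02cd9803c1005) (.leaf 0x3e074000002800818940006eb803e1005))))) (.sr 2176 (.sR 2336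 (.leaf 0x3c05c0000c280091614001b55803c1005) (.sR 2464 (.leaf 0x3b070000042800a1811047e7f803b1005) (.leaf 0x4007c000002800b198f8745f280401005))) (.sR 2336 (.leaf 0x410500000c2800c140a00289e80411005) (.sg 38 (.sR 2464 (.leaf 0x3e06c000042800d1795401f88803e1005) (.leaf 0x3c074000002800e1894001b55803c1005)) (.sR 2464 (.leaf 0x3c06c000042800f179540655e803c1005) (.leaf 0x3a07c0000028010198f87a5d9803a1005)))))) (.sg 36 (.sr 2432 (.sg 34 (.sR 2336 (.leaf 0x400500001828011140a00000280401005) (.sR 2464 (.leaf 0x3f05c0002028012158ac019ae803f1005) (.leaf 0x3e0680001428013170b80449c803e1005))) (.sR 2336 (.leaf 0x3f04c00018280141388c0c236803f1005) (.sR 2464 (.leaf 0x400580002028015150940000280401005) (.leaf 0x400640000028016168a00000280401005)))) (.sg 34 (.sR 2336 (.sR 2272 (.leaf 0x3f0540000828019148e000762803f1005) (.leaf 0x42060000102801a16140006eb80421005)) (.sR 2464 (.leaf 0x400580002028017150940000280401005) (.leaf 0x400680001428018170b80000280401005))) (.sR 2464 (.sR 2336 (.sR 2272 (.leaf 0x42050000082801c140c00399d80421005)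 (.leaf 0x41058000102801d150d8008c080411005)) (.sR 2400 (.leaf 0x3b0700001c2801e1811047e7f803b1005) (.leaf 0x3f078000242801f190ec90550803f1005))) (.leaf 0x3f060000142801b1608c0c236803f1005)))) (.sr 2432 (.sg 38 (.sR 2336 (.leaf 0x4004c00018280201388c0000280401005) (.sR 2464 (.leaf 0x3f05c0000428021158ac019ae803f1005) (.leaf 0x3f0640000028022168a00289e803f1005))) (.sR 2336 (.sR 2272 (.leaf 0x400480000828025130900000280401005) (.leaf 0x3b0700002828026180d8cd5c3803b1005)) (.sR 2464 (.leaf 0x400600000428023160c80000280401005) (.leaf 0x3f0680000028024170b801174803f1005)))) (.sg 38 (.sR 2400 (.sR 2272 (.leaf 0x3f0540000828027148e000762803f1005) (.sR 2336 (.leaf 0x4104c00010280281388c0c23680411005) (.leaf 0x430700001c28029181104ba8a6a431005))) (.sR 2464 (.leaf 0x3c078000242802a190ec915ef6a3c1005) (.sR 2528 (.leaf 0x3807c0002c2802b198f87d76080381005) (.leaf 0x38080000302802c1a1006558880381005)))) (.sR 2464 (.sR 2336 (.sR 2272 (.leaf 0x4004c000082802e138a80000280401005) (.leaf 0x42054000102802f148b80449c80421005)) (.sR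 2400 (.leaf 0x410740001c28030188e0ad57e80411005) (.leaf 0x3b0780002428031190ec91b546a3b1005))) (.leaf 0x3f068000142802d170b801174803f1005))))))
theorem k4 : ChunkP 5 5 2048 2560 32 40 2208 2592 :=
  chkZ_sound (Q := 40) (C := []) (Z := [z200, z201, z202, z203, z204, z205, z206, z207, z208, z209, z210, z211, z212, z213, z214, z215, z216, z217, z218, z219, z220, z221, z222, z223, z224, z225, z226, z227, z228, z229, z230, z231, z232, z233, z234, z235, z236, z237, z238, z239, z240, z241, z242, z243, z244, z245, z246, z247, z248, z249])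
    (T := [f_w616_648_0_40_10s, f_w584_616_0_40_10s, f_w552_568_0_60_20s, f_w552_584_0_40_10s, f_w568_584_0_60_20s, f_w616_648_0_50_10s, f_w552_584_0_50_10s, f_w584_600_0_50_30s, f_w584_616_0_50_10s, f_w600_616_0_50_30s, f_w568_584_0_50_30s, f_w616_632_0_50_30s, f_w632_648_0_50_30s]) (t := t4)
    all_nil
    (all_cons z200P (all_cons z201P (all_cons z202P (all_cons z203P (all_cons z204P (all_cons z205P (all_cons z206P (all_cons z207P (all_cons z208P (all_cons z209P (all_cons z210P (all_cons z211P (all_cons z212P (all_cons z213P (all_cons z214P (all_cons z215P (all_cons z216P (all_cons z217P (all_cons z218P (all_cons z219P (all_cons z220P (all_cons z221P (all_cons z222P (all_cons z223P (all_cons z224P (all_cons z225P (all_cons z226P (all_cons z227P (all_cons z228P (all_cons z229P (all_cons z230P (all_cons z231P (all_cons z232P (all_cons z233P (all_cons z234P (all_cons z235P (all_cons z236P (all_cons z237P (all_cons z238P (all_cons z239P (all_cons z240P (all_cons z241P (all_cons z242P (all_cons z243P (all_cons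 z244P (all_cons z245P (all_cons z246P (all_cons z247P (all_cons z248P (all_cons z249P all_nil))))))))))))))))))))))))))))))))))))))))))))))))))
    (all_cons f_w616_648_0_40_10s_p (all_cons f_w584_616_0_40_10s_p (all_cons f_w552_568_0_60_20s_p (all_cons f_w552_584_0_40_10s_p (all_cons f_w568_584_0_60_20s_p (all_cons f_w616_648_0_50_10s_p (all_cons f_w552_584_0_50_10s_p (all_cons f_w584_600_0_50_30s_p (all_cons f_w584_616_0_50_10s_p (all_cons f_w600_616_0_50_30s_p (all_cons f_w568_584_0_50_30s_p (all_cons f_w616_632_0_50_30s_p (all_cons f_w632_648_0_50_30s_p all_nil)))))))))))))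
    (by decide +kernel)
def t5 : Tree := (.sr 2304 (.sg 44 (.sr 2176 (.sR 2336 (.leaf 0x400640000028000170f8780756a401005) (.sR 2464 (.leaf 0x3c0740000828001188e0aefba803c1005) (.leaf 0x3f08000004280021a0d0eb216803f1005))) (.sR 2336 (.leaf 0x400540000028003148b80000280401005) (.sR 2464 (.leaf 0x3e06c00008280041795401f88803e1005) (.leaf 0x3e074000042800518940006eb803e1005)))) (.sr 2176 (.sR 2336 (.leaf 0x3f0680000028006178d0e15af6a3f1005) (.sR 2464 (.leaf 0x3c0640001c28007168ec060ca803c1005) (.leaf 0x3808000004280081a0d0ecde680381005))) (.sR 2336 (.leaf 0x400640000028009170f8745f280401005) (.sR 2464 (.leaf 0x3b070000082800a1811047e7f803b1005) (.leaf 0x3c07c000042800b198f87761e803c1005))))) (.sg 44 (.sr 2432 (.sg 42 (.sR 2336 (.leaf 0x3f058000002800c150d8008c0803f1005) (.sR 2464 (.leaf 0x3f064000082800d168ec00635803f1005) (.leaf 0x3e06c000042800e178d8022bf803e1005))) (.sR 2336 (.leaf 0x3d058000002800f150d804d46803d1005) (.sR 2464 (.leaf 0x3f06800008280101711c002da803f1005) (.leaf 0x3d07c0000428011198f87624c803d1005))))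 (.sg 42 (.sR 2336 (.sR 2272 (.leaf 0x420600000c28014161900058780421005) (.leaf 0x400700001028015180d8cb85980401005)) (.sR 2464 (.leaf 0x3f05800014280121509404ade803f1005) (.leaf 0x410680001828013170b80117480411005))) (.sR 2336 (.sR 2272 (.leaf 0x3f0640000c280181692c12ca7803f1005) (.leaf 0x3d0700001028019180d8cc453803d1005)) (.sR 2464 (.leaf 0x400580001428016150940000280401005) (.leaf 0x420680001828017170b80449c80421005))))) (.sr 2432 (.sR 2336 (.sg 46 (.leaf 0x3e05c000002801c16140006eb803e1005) (.leaf 0x3e060000002801d1692c157a5803e1005)) (.sR 2464 (.leaf 0x42068000082801a1711c00b5d80421005) (.leaf 0x42070000042801b181000112580421005))) (.sg 46 (.sR 2336 (.leaf 0x41050000002801e140a00289e80411005) (.sR 2464 (.leaf 0x4005c000082801f158ac0000280401005) (.leaf 0x400680000428020170b80000280401005))) (.sR 2336 (.leaf 0x400580000028021150d80000280401005) (.sR 2464 (.leaf 0x3f0640000828022168ec00635803f1005) (.leaf 0x3b07c0000428023198f878d19803b1005)))))))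
theorem k5 : ChunkP 5 5 2048 2560 40 48 2208 2592 :=
  chkZ_sound (Q := 40) (C := []) (Z := [z250, z251, z252, z253, z254, z255, z256, z257, z258, z259, z260, z261, z262, z263, z264, z265, z266, z267, z268, z269, z270, z271, z272, z273, z274, z275, z276, z277, z278, z279, z280, z281, z282, z283, z284, z285])
    (T := [f_w552_584_0_40_10s, f_w616_648_0_40_10s, f_w584_616_0_40_10s, f_w552_568_0_50_40s, f_w568_584_0_50_30s, f_w584_616_0_50_10s, f_w616_648_0_50_10s, f_w584_616_0_10_0s]) (t := t5)
    all_nil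
    (all_cons z250P (all_cons z251P (all_cons z252P (all_cons z253P (all_cons z254P (all_cons z255P (all_cons z256P (all_cons z257P (all_cons z258P (all_cons z259P (all_cons z260P (all_cons z261P (all_cons z262P (all_cons z263P (all_cons z264P (all_cons z265P (all_cons z266P (all_cons z267P (all_cons z268P (all_cons z269P (all_cons z270P (all_cons z271P (all_cons z272P (all_cons z273P (all_cons z274P (all_cons z275P (all_cons z276P (all_cons z277P (all_cons z278P (all_cons z279P (all_cons z280P (all_cons z281P (all_cons z282P (all_cons z283P (all_cons z284P (all_cons z285P all_nil))))))))))))))))))))))))))))))))))))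
    (all_cons f_w552_584_0_40_10s_p (all_cons f_w616_648_0_40_10s_p (all_cons f_w584_616_0_40_10s_p (all_cons f_w552_568_0_50_40s_p (all_cons f_w568_584_0_50_30s_p (all_cons f_w584_616_0_50_10s_p (all_cons f_w616_648_0_50_10s_p (all_cons f_w584_616_0_10_0s_p all_nil))))))))
    (by decide +kernel)

end Pool.Agent.Lib.MP_af3a4a_an.P1.CHK.DATA.N5s
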